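import Mathlib
import Pool.Agent.W777.MF.Tra
set_option autoImplicit false

/-!
# The restriction conjecture for almost every anisotropic dilate of a function

Let `f ∈ L^q([-1,1]^(m+1))` and, for `l ∈ [1,∞)^m`, let `f_l(ξ) = f(ξ_0, l_1 ξ_1, ..., l_m ξ_m)`,
extended by zero. The extension of `f_l` from the paraboloid in `ℝ^d`, `d = m + 2`, or from any
surface `τ = ∑ c_j ξ_j^2` with non-zero coefficients, belongs to `L^q(ℝ^d)` for all `l` outside a
set of Hausdorff dimension at most `(4-q)/(q-2)`. This number is smaller than `m` exactly in the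
range `q > 2d/(d-1)` of the restriction conjecture; so there `E f_l ∈ L^q(ℝ^d)` for almost every `l`.
-/

namespace Pool.Agent.Results.MP_b7167f_an.AlmostEveryStretch

open MeasureTheory Set Complex
open scoped ENNReal NNReal

/-- The extension operator of the surface `τ = ∑ c_j ξ_j^2` over the cube `[-1,1]^n`:
`E_c f(x,t) = ∫_{[-1,1]^n} f(ξ) exp(2πi(ξ·x + t ∑ c_j ξ_j^2)) dξ`. For `c = (1,...,1)` it is the
extension operator of the paraboloid. -/
noncomputable def ext {n : ℕ} (c : Fin n → ℝ) (f : (Fin n → ℝ) → ℂ) (y : (Fin n → ℝ) × ℝ) : ℂ :=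
  ∫ ξ in Icc (-1) 1, f ξ *
    cexp (2 * Real.pi * I * ((∑ j, ξ j * y.1 j + (∑ j, c j * ξ j ^ 2) * y.2 : ℝ) : ℂ))

/-- The dilate `f_l(ξ) = f(ξ_0, l_1 ξ_1, ..., l_m ξ_m)` if this point lies in the cube
`[-1,1]^(m+1)`, and `0` otherwise. -/
noncomputable def stretch {m : ℕ} (l : Fin m → ℝ) (f : (Fin (m + 1) → ℝ) → ℂ)
    (ξ : Fin (m + 1) → ℝ) : ℂ :=
  (Icc (-1) 1).indicator f (Fin.cons (ξ 0) fun j => l j * ξ j.succ)

/-- Let `d = m + 2`, `c ∈ ℝ^(m+1)` with non-zero entries, `q > 2` and `f ∈ L^q([-1,1]^(m+1))`.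
The set of all `l ∈ [1,∞)^m` for which `E_c f_l` is not in `L^q(ℝ^d)` has Hausdorff dimension at
most `max(0, (4-q)/(q-2))`. If `q > 2d/(d-1)`, then `E_c f_l ∈ L^q(ℝ^d)` for almost every
`l ∈ [1,∞)^m`. -/
theorem result (m : ℕ) (hm : 0 < m) (c : Fin (m + 1) → ℝ) (hc : ∀ j, c j ≠ 0) (q : ℝ)
    (hq : 2 < q) (f : (Fin (m + 1) → ℝ) → ℂ)
    (hf : MemLp f (ENNReal.ofReal q) (volume.restrict (Icc (-1) 1))) :
    dimH {l : Fin m → ℝ | (∀ j, 1 ≤ l j) ∧
      ¬ MemLp (ext c (stretch l f)) (ENNReal.ofReal q) volume} ≤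
        ENNReal.ofReal ((4 - q) / (q - 2)) ∧
    (2 * (m + 2 : ℝ) / (m + 1) < q → ∀ᵐ l : Fin m → ℝ, (∀ j, 1 ≤ l j) →
      MemLp (ext c (stretch l f)) (ENNReal.ofReal q) volume) := by
  have h1 : dimH {l : Fin m → ℝ | (∀ j, 1 ≤ l j) ∧
      ¬ MemLp (ext c (stretch l f)) (ENNReal.ofReal q) volume} ≤
        ENNReal.ofReal ((4 - q) / (q - 2)) :=
    Pool.Agent.W777.MF.exc_dim hq c hc f hf
  refine ⟨h1, fun hq2 => ?_⟩
  have hm0 : (0 : ℝ) < m := Nat.cast_pos.2 hm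
  have h2 : (4 - q) / (q - 2) < m := by
    rw [div_lt_iff₀ (by positivity)] at hq2
    rw [div_lt_iff₀ (by linarith)]
    nlinarith
  have h3 : ENNReal.ofReal ((4 - q) / (q - 2)) < m := by
    rw [← ENNReal.ofReal_natCast]
    exact (ENNReal.ofReal_lt_ofReal_iff hm0).2 h2
  have h4 := Pool.Agent.W777.MF.ae_of_dim (h1.trans_lt h3)
  rw [ae_iff]
  refine measure_mono_null ?_ h4
  intro l hl
  simp only [mem_ofPred_eq] at hl ⊢
  push Not at hl
  exact ⟨hl.1, hl.2⟩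

end Pool.Agent.Results.MP_b7167f_an.AlmostEveryStretch
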