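import Mathlib
import Pool.Agent.W771.NT
set_option autoImplicit false

/-!
# The restriction conjecture for twists by curves with increasing chords

Let `d = m + 2 ≥ 3` and write the variables as `ξ = (ξ₀, ξ₁, ..., ξ_m)`. In the full conjectured
range `q > 2d/(d-1)` the extension estimate for the paraboloid is proved, with a uniform constant,
for all functions `f(ξ) = a(ξ₀) ∏_j g_j(ξ₀, ξ_j) exp(2πi ∑_j λ_j(ξ₀) ξ_j)` and for their averages
over `λ`, where `a ∈ L^q` is arbitrary, the `g_j` are bounded by `1` and of bounded variation in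
`ξ_j` only, and `λ : ℝ → ℝ^m` is a possibly unbounded curve with (piecewise) increasing chords; in
particular all the `λ_j` may be arbitrary piecewise monotone functions with a bounded number of
pieces.
-/

namespace Pool.Agent.Results.MP_b7167f_an.IncreasingChordTwists

open MeasureTheory Set Complex
open scoped ENNReal NNReal

/-- The extension operator of the truncated paraboloid in `ℝ^(n+1)`:
`Ef(x,t) = ∫_{[-1,1]^n} f(ξ) exp(2πi(ξ·x + |ξ|² t)) dξ`. -/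
noncomputable def ext {n : ℕ} (f : (Fin n → ℝ) → ℂ) (y : (Fin n → ℝ) × ℝ) : ℂ :=
  ∫ ξ in Icc (fun _ : Fin n => (-1 : ℝ)) (fun _ => 1),
    f ξ * cexp (2 * Real.pi * I * ((∑ j, ξ j * y.1 j + (∑ j, ξ j ^ 2) * y.2 : ℝ) : ℂ))

/-- The curve `lam : ℝ → ℝ^m` has increasing chords on `[s,e]`:
`|lam b - lam c| ≤ |lam a - lam d|` whenever `s ≤ a ≤ b ≤ c ≤ d ≤ e`. For instance, all of its
components are monotone on `[s,e]`. -/
def IncreasingChords {m : ℕ} (s e : ℝ) (lam : ℝ → Fin m → ℝ) : Prop :=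
  ∀ a b c d : ℝ, s ≤ a → a ≤ b → b ≤ c → c ≤ d → d ≤ e →
    ∑ j, (lam b j - lam c j) ^ 2 ≤ ∑ j, (lam a j - lam d j) ^ 2

/-- `[-1,1]` is covered by `k` closed intervals on each of which `lam` has increasing chords. -/
def PiecewiseIncreasingChords {m : ℕ} (k : ℕ) (lam : ℝ → Fin m → ℝ) : Prop :=
  ∃ s e : Fin k → ℝ, Icc (-1 : ℝ) 1 ⊆ (⋃ i, Icc (s i) (e i)) ∧
    ∀ i, IncreasingChords (s i) (e i) lam

/-- **The restriction conjecture for twists by curves with increasing chords.**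
Let `m ≥ 1`, `d = m + 2`, `q > 2d/(d-1)`, `k ∈ ℕ` and `V ≥ 0`. There is `C` such that
`∫_{ℝ^d} |E f|^q ≤ C ∫_{-1}^1 |a|^q` for every
`f(ξ) = a(ξ₀) ∏_{j=1}^m g_j(ξ₀, ξ_j) ∫_Ω exp(2πi ∑_j λ^ω_j(ξ₀) ξ_j) dP(ω)`, where

* `a` and `g_1, ..., g_m` are measurable, `|g_j| ≤ 1` on `[-1,1]²`, and for all `u ∈ [-1,1]` and
  `h ∈ [0,1]` the integral of `|g_j(u,v+h) - g_j(u,v)|` over `v ∈ [-1,1-h]` is at most `V h`
  (which holds when the variation of `g_j(u,·)` on `[-1,1]` is at most `V`),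
* `P` is a probability measure, `λ^ω(u) ∈ ℝ^m` is jointly measurable in `(ω,u)`, and for every
  `ω` the curve `λ^ω` has piecewise increasing chords with `k` pieces. -/
theorem result (m : ℕ) (hm : 1 ≤ m) (q : ℝ) (hq : 2 * ((m : ℝ) + 2) / (m + 1) < q) (k : ℕ)
    (V : ℝ≥0) : ∃ C : ℝ≥0,
    ∀ (Ω : Type) [MeasurableSpace Ω] (P : Measure Ω) [IsProbabilityMeasure P] (a : ℝ → ℂ)
      (g : Fin m → ℝ × ℝ → ℂ) (lam : Ω → ℝ → Fin m → ℝ),
      Measurable a → (∀ j, Measurable (g j)) → Measurable (fun w : Ω × ℝ => lam w.1 w.2) →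
      (∀ j, ∀ u ∈ Icc (-1 : ℝ) 1, ∀ v ∈ Icc (-1 : ℝ) 1, ‖g j (u, v)‖ ≤ 1) →
      (∀ j, ∀ u ∈ Icc (-1 : ℝ) 1, ∀ h ∈ Icc (0 : ℝ) 1,
        ∫⁻ v in Icc (-1 : ℝ) (1 - h), ‖g j (u, v + h) - g j (u, v)‖ₑ ≤ ENNReal.ofReal (V * h)) →
      (∀ ω, PiecewiseIncreasingChords k (lam ω)) →
      ∫⁻ y : (Fin (m + 1) → ℝ) × ℝ, ‖ext (fun ξ => a (ξ 0) * (∏ j, g j (ξ 0, ξ j.succ)) *
        ∫ ω, cexp (2 * Real.pi * I * ((∑ j, lam ω (ξ 0) j * ξ j.succ : ℝ) : ℂ)) ∂P) y‖ₑ ^ q ≤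
        C * ∫⁻ u in Icc (-1 : ℝ) 1, ‖a u‖ₑ ^ q := by
  obtain ⟨C, hC⟩ := Pool.Agent.W771.NN.mainSup m hm (Icc (-1 : ℝ) 1) Subset.rfl k V V.2 q hq
  refine ⟨C, ?_⟩
  intro Ω _ P _ a g lam ha hg hl hb hmod hch
  have h1 := hC Ω P ((Icc (-1 : ℝ) 1).indicator a) g lam (ha.indicator measurableSet_Icc) hg hl hb
    hmod (ae_of_all _ hch) (fun u hu => indicator_of_notMem hu _)
  refine le_trans (le_of_eq ?_) (h1.trans (le_of_eq ?_))
  · congr 1
    ext y
    congr 2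
    unfold ext Pool.Agent.H728R3.SR.ext
    apply setIntegral_congr_fun measurableSet_Icc
    intro ξ hξ
    simp only
    congr 1
    unfold Pool.Agent.W771.NN.sdens Pool.Agent.W771.NN.dens
    rw [indicator_of_mem (show ξ 0 ∈ Icc (-1 : ℝ) 1 from ⟨hξ.1 0, hξ.2 0⟩), ← integral_const_mul]
    congr 1
    ext ω
    rw [Finset.prod_mul_distrib, mul_assoc]
    congr 2
    unfold Pool.Agent.W771.NN.ee
    rw [← Complex.exp_sum]
    congr 1
    push_cast
    rw [Finset.mul_sum]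
  · congr 1
    apply setLIntegral_congr_fun measurableSet_Icc
    intro u hu
    simp only
    rw [indicator_of_mem hu]

end Pool.Agent.Results.MP_b7167f_an.IncreasingChordTwists
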