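import Mathlib
import Pool.Agent.W786.Ls.All
set_option autoImplicit false

/-!
# The restriction conjecture for functions whose frequencies lie in a `Λ(q)` set

`E` is the extension operator of the truncated paraboloid in `ℝ^d`. A function on the cube
`[-1,1]^n` is expanded in the characters `exp(πi k·v)`, `k ∈ ℤ^n`.

For `Λ ⊆ ℤ^(d-1)` consider all `f ∈ L²([-1,1]^(d-1))` with frequencies in `Λ`. The estimate
`‖Ef‖_q ≤ C ‖f‖_2` holds if `Λ` is a `Λ(q)` set with a loss smaller than `κ/q`, and it implies that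
`Λ` is a `Λ(q)` set with loss at most `(n+4)κ/q`, where `n = d-1` and `κ = n(q/2-1)-1 → 0` as
`q → 2d/(d-1)`, the critical exponent of the restriction conjecture. The same holds if only the
frequencies in `d-2` of the variables are in a `Λ(q)` set, `Λ ⊆ ℤ^(d-2)`, while the function is
completely arbitrary in the remaining variable.
-/

namespace Pool.Agent.Results.MP_b7167f_an.LambdaSpectrum

open MeasureTheory Set Complex
open scoped ENNReal NNReal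

/-- The closed cube `[-1,1]^n`. -/
abbrev cube (n : ℕ) : Set (Fin n → ℝ) := Icc (fun _ : Fin n => (-1 : ℝ)) (fun _ => 1)

/-- The extension operator of the truncated paraboloid in `ℝ^(n+1)`:
`Ef(x,t) = ∫_{[-1,1]^n} f(ξ) exp(2πi(ξ·x + |ξ|² t)) dξ`. -/
noncomputable def ext {n : ℕ} (f : (Fin n → ℝ) → ℂ) (y : (Fin n → ℝ) × ℝ) : ℂ :=
  ∫ ξ in cube n,
    f ξ * cexp (2 * Real.pi * I * ((∑ j, ξ j * y.1 j + (∑ j, ξ j ^ 2) * y.2 : ℝ) : ℂ))

/-- The character `exp(πi k·v)`, `k ∈ ℤ^n`, of period `2` in each variable. -/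
noncomputable def chr {n : ℕ} (k : Fin n → ℤ) (v : Fin n → ℝ) : ℂ :=
  cexp (Real.pi * I * ((∑ j, (k j : ℝ) * v j : ℝ) : ℂ))

/-- `Λ ⊆ ℤ^n` is a `Λ(q)` set with loss `δ` and constant `K`: for `N ≥ 1`, every finite `S ⊆ Λ` of
diameter at most `N` (maximum norm) and all coefficients,
`‖∑_{k ∈ S} c_k exp(πi k·v)‖_{L^q([-1,1]^n)} ≤ K N^δ (∑_{k ∈ S} |c_k|²)^(1/2)`.
For `δ = 0` this is Rudin's notion of a `Λ(q)` set. -/
def IsLambdaSet {n : ℕ} (Λ : Set (Fin n → ℤ)) (q δ : ℝ) (K : ℝ≥0) : Prop :=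
  ∀ (N : ℝ) (S : Finset (Fin n → ℤ)) (c : (Fin n → ℤ) → ℂ), 1 ≤ N → (∀ k ∈ S, k ∈ Λ) →
    (∀ k ∈ S, ∀ l ∈ S, ‖k - l‖ ≤ N) →
    eLpNorm (fun v => ∑ k ∈ S, c k * chr k v) (ENNReal.ofReal q) (volume.restrict (cube n)) ≤
      ENNReal.ofReal (K * N ^ δ * Real.sqrt (∑ k ∈ S, ‖c k‖ ^ 2))

/-- The frequencies of `g` lie in `Λ`: the Fourier coefficients on the cube vanish outside `Λ`. -/
def FrequenciesIn {n : ℕ} (Λ : Set (Fin n → ℤ)) (g : (Fin n → ℝ) → ℂ) : Prop :=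
  ∀ k, k ∉ Λ → ∫ v in cube n, g v * (starRingEnd ℂ) (chr k v) = 0

/-- **The restriction conjecture for functions whose frequencies lie in a `Λ(q)` set.** -/
theorem result :
    -- (1) Frequencies in all variables, `n = d - 1`: if `Λ` is a `Λ(r)` set with a loss
    -- `δ < (n(r/2-1)-1)/r`, then `‖Ef‖_q ≤ C K ‖f‖_2` for all `q ≥ r`.
    (∀ (n : ℕ) (r q δ : ℝ), 1 ≤ n → 2 < r → r ≤ q → 0 ≤ δ → r * δ < n * (r / 2 - 1) - 1 →
      ∃ C : ℝ≥0, ∀ (Λ : Set (Fin n → ℤ)) (K : ℝ≥0), 1 ≤ K → IsLambdaSet Λ r δ K →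
        ∀ f : (Fin n → ℝ) → ℂ, Measurable f → MemLp f 2 (volume.restrict (cube n)) →
        FrequenciesIn Λ f →
        eLpNorm (ext f) (ENNReal.ofReal q) volume ≤
          C * K * eLpNorm f 2 (volume.restrict (cube n))) ∧
    -- (2) Conversely such an estimate implies that `Λ` is a `Λ(q)` set with a small loss.
    (∀ (n : ℕ) (q : ℝ), 1 ≤ n → 2 < q → 0 ≤ n * (q / 2 - 1) - 1 →
      ∃ C : ℝ≥0, ∀ (Λ : Set (Fin n → ℤ)) (B : ℝ≥0),
        (∀ f : (Fin n → ℝ) → ℂ, Measurable f → MemLp f 2 (volume.restrict (cube n)) →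
          FrequenciesIn Λ f →
          eLpNorm (ext f) (ENNReal.ofReal q) volume ≤
            B * eLpNorm f 2 (volume.restrict (cube n))) →
        IsLambdaSet Λ q ((n + 4) * (n * (q / 2 - 1) - 1) / q) (C * (B + 1))) ∧
    -- (3) If every cube of side `N` contains at most `K N^α` points of `Λ`, then
    -- `‖Ef‖_q ≤ C K^(1/2-1/q) ‖f‖_2` for `q > 2 + 2/(n-α)`.
    (∀ (n : ℕ) (q α : ℝ), 1 ≤ n → 0 ≤ α → α < n → 2 + 2 / (n - α) < q →
      ∃ C : ℝ≥0, ∀ (Λ : Set (Fin n → ℤ)) (K : ℝ≥0), 1 ≤ K →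
        (∀ (N : ℝ) (S : Finset (Fin n → ℤ)), 1 ≤ N → (∀ k ∈ S, k ∈ Λ) →
          (∀ k ∈ S, ∀ l ∈ S, ‖k - l‖ ≤ N) → (S.card : ℝ) ≤ K * N ^ α) →
        ∀ f : (Fin n → ℝ) → ℂ, Measurable f → MemLp f 2 (volume.restrict (cube n)) →
        FrequenciesIn Λ f →
        eLpNorm (ext f) (ENNReal.ofReal q) volume ≤
          C * ENNReal.ofReal (K ^ (1 / 2 - 1 / q)) * eLpNorm f 2 (volume.restrict (cube n))) ∧
    -- (4) One arbitrary variable `u`, frequencies of `f(u,·)` in `Λ ⊆ ℤ^m`, `m = d - 2`.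
    (∀ (m : ℕ) (r q δ p : ℝ), 1 ≤ m → 2 < r → r ≤ q → 0 ≤ δ →
      (m + 1) * (r * δ) < m * ((m + 1) * (r / 2 - 1) - 1) → 2 ≤ p →
      (m + 1) * r < p * ((m + 1) * (r - 1) - 2) →
      ∃ C : ℝ≥0, ∀ (Λ : Set (Fin m → ℤ)) (K : ℝ≥0), 1 ≤ K → IsLambdaSet Λ r δ K →
        ∀ f : (Fin (m + 1) → ℝ) → ℂ, Measurable f →
        (∀ᵐ u ∂((volume : Measure ℝ).restrict (Icc (-1) 1)),
          FrequenciesIn Λ (fun v => f (Fin.cons u v))) →
        ∀ A : ℝ≥0, (∫⁻ u in Icc (-1 : ℝ) 1,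
          (∫⁻ v in cube m, ‖f (Fin.cons u v)‖ₑ ^ 2) ^ (p / 2) ≤ (A : ℝ≥0∞) ^ p) →
        eLpNorm (ext f) (ENNReal.ofReal q) volume ≤ C * K * A) ∧
    -- (5) The converse of (4), already for `f` with `f(u,·)` bounded in `L²`.
    (∀ (m : ℕ) (q : ℝ), 1 ≤ m → 2 < q → 0 ≤ (m + 1) * (q / 2 - 1) - 1 →
      ∃ C : ℝ≥0, ∀ (Λ : Set (Fin m → ℤ)) (B : ℝ≥0),
        (∀ f : (Fin (m + 1) → ℝ) → ℂ, Measurable f →
          (∀ u ∈ Icc (-1 : ℝ) 1, FrequenciesIn Λ (fun v => f (Fin.cons u v))) → ∀ A : ℝ≥0,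
          (∀ u ∈ Icc (-1 : ℝ) 1, ∫⁻ v in cube m, ‖f (Fin.cons u v)‖ₑ ^ 2 ≤ (A : ℝ≥0∞) ^ 2) →
          eLpNorm (ext f) (ENNReal.ofReal q) volume ≤ B * A) →
        IsLambdaSet Λ q ((m + 4) * ((m + 1) * (q / 2 - 1) - 1) / q) (C * (B + 1))) := by
  refine ⟨?_, ?_, ?_, ?_, ?_⟩
  · intro n r q δ hn hr hrq hδ hrδ
    exact Pool.Agent.W786.Ls.part1 Pool.Agent.W786.Ls.slice_holds Pool.Agent.W597.LS.apx
      n r q δ hn hr hrq hδ hrδ
  · intro n q hn hq hκ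
    exact Pool.Agent.W786.Ls.part3 Pool.Agent.W597.LS.pars Pool.Agent.W786.Ls.cv3_holds
      n q hn hq hκ
  · intro n q α hn hα hαn hq
    exact Pool.Agent.W786.Ls.part5 Pool.Agent.W786.Ls.slice_holds Pool.Agent.W597.LS.apx
      Pool.Agent.W597.LS.pars n q α hn hα hαn hq
  · intro m r q δ p hm hr hrq hδ hrδ hp2 hp
    exact Pool.Agent.W786.Ls.part2 Pool.Agent.W786.Ls.slice_holds Pool.Agent.W597.LS.apx
      m r q δ p hm hr hrq hδ hrδ hp2 hp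
  · intro m q hm hq hκ
    obtain ⟨C, hC⟩ := Pool.Agent.W786.Ls.part4 Pool.Agent.W597.LS.pars
      Pool.Agent.W338.LS.cv1 Pool.Agent.W786.Ls.cv3_holds m q hm hq hκ
    refine ⟨C, ?_⟩
    intro Λ B hB
    refine hC Λ B ?_
    intro f hf hsp A hA
    exact hB f hf (fun u _ => hsp u) A (fun u _ => hA u)

end Pool.Agent.Results.MP_b7167f_an.LambdaSpectrum
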