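import Mathlib
import Pool.Agent.W777.MF.B2
set_option autoImplicit false

/-!
# The restriction conjecture for functions of a monomial

Let `n = m + 1 ≥ 2`, `c ∈ ℝ^n` with non-zero entries and let `E_c` be the extension operator of the
surface `τ = ∑ c_j ξ_j^2` in `ℝ^(n+1)` (the paraboloid for `c = (1,...,1)`). Let `a ∈ ℝ^n` with
`∑ a_j ≠ 0`. For all `q > 2(n+1)/n`, the full range of the conjecture, `E_c` maps all functions
`w(ξ) F(sgn ξ, ∏ |ξ_j|^(a_j)) ∏ |ξ_j|^(i τ_j)` to `L^q(ℝ^(n+1))`, where `F` is an arbitrary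
measurable function, `τ ∈ ℝ^n`, and `w` is a window supported in the cube. The bound is the `L^q`
norm of the function on `[-2,2]^n`, with a constant which does not depend on `F` and `τ`.
-/

namespace Pool.Agent.Results.MP_b7167f_an.MonomialFunctions

open MeasureTheory Set Complex
open scoped ENNReal NNReal

/-- The extension operator of the surface `τ = ∑ c_j ξ_j^2` over the cube `[-1,1]^n`:
`E_c f(x,t) = ∫_{[-1,1]^n} f(ξ) exp(2πi(ξ·x + t ∑ c_j ξ_j^2)) dξ`. For `c = (1,...,1)` it is the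
extension operator of the paraboloid. -/
noncomputable def ext {n : ℕ} (c : Fin n → ℝ) (f : (Fin n → ℝ) → ℂ) (y : (Fin n → ℝ) × ℝ) : ℂ :=
  ∫ ξ in Icc (-1) 1, f ξ *
    cexp (2 * Real.pi * I * ((∑ j, ξ j * y.1 j + (∑ j, c j * ξ j ^ 2) * y.2 : ℝ) : ℂ))

/-- The inverse Fourier transform `w(ξ) = ∫ φ(η) exp(2πi ξ·η) dη` of `φ ∈ L^1`. -/
noncomputable def window {n : ℕ} (φ : (Fin n → ℝ) → ℂ) (ξ : Fin n → ℝ) : ℂ :=
  ∫ η, φ η * cexp (2 * Real.pi * I * ((∑ j, ξ j * η j : ℝ) : ℂ))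

/-- The function `F(sgn ξ, ∏ |ξ_j|^(a_j)) ∏ |ξ_j|^(i τ_j)`. -/
noncomputable def mono {n : ℕ} (a τ : Fin n → ℝ) (F : (Fin n → SignType) → ℝ → ℂ)
    (ξ : Fin n → ℝ) : ℂ :=
  F (fun j => SignType.sign (ξ j)) (∏ j, |ξ j| ^ a j) *
    ∏ j, cexp ((τ j * Real.log |ξ j| : ℝ) * I)

lemma sign_set (s : SignType) : MeasurableSet {x : ℝ | SignType.sign x = s} := by
  rcases s with _ | _ | _
  · have : {x : ℝ | SignType.sign x = SignType.zero} = {0} := by
      ext x
      exact sign_eq_zero_iff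
    rw [this]
    exact measurableSet_singleton 0
  · have : {x : ℝ | SignType.sign x = SignType.neg} = Iio 0 := by
      ext x
      exact sign_eq_neg_one_iff
    rw [this]
    exact measurableSet_Iio
  · have : {x : ℝ | SignType.sign x = SignType.pos} = Ioi 0 := by
      ext x
      exact sign_eq_one_iff
    rw [this]
    exact measurableSet_Ioi

lemma signs_set {n : ℕ} (σ : Fin n → SignType) :
    MeasurableSet {ξ : Fin n → ℝ | (fun j => SignType.sign (ξ j)) = σ} := by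
  have : {ξ : Fin n → ℝ | (fun j => SignType.sign (ξ j)) = σ} =
      ⋂ j, (fun ξ : Fin n → ℝ => ξ j) ⁻¹' {x : ℝ | SignType.sign x = σ j} := by
    ext ξ
    simp [funext_iff]
  rw [this]
  exact MeasurableSet.iInter fun j => (measurable_pi_apply j) (sign_set (σ j))

lemma mono_meas {n : ℕ} (a τ : Fin n → ℝ) {F : (Fin n → SignType) → ℝ → ℂ}
    (hF : ∀ σ, Measurable (F σ)) : Measurable (mono a τ F) := by
  have h1 : (fun ξ : Fin n → ℝ => F (fun j => SignType.sign (ξ j)) (∏ j, |ξ j| ^ a j)) =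
      fun ξ => ∑ σ : Fin n → SignType, {ξ : Fin n → ℝ | (fun j => SignType.sign (ξ j)) = σ}.indicator
        (fun ξ => F σ (∏ j, |ξ j| ^ a j)) ξ := by
    ext ξ
    rw [Finset.sum_eq_single (fun j => SignType.sign (ξ j))]
    · rw [indicator_of_mem]
      rfl
    · intro σ _ hσ
      rw [indicator_of_notMem]
      intro h
      exact hσ h.symm
    · intro h
      exact absurd (Finset.mem_univ _) h
  have h2 : Measurable fun ξ : Fin n → ℝ =>
      F (fun j => SignType.sign (ξ j)) (∏ j, |ξ j| ^ a j) := by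
    rw [h1]
    refine Finset.measurable_sum _ fun σ _ => Measurable.indicator ?_ (signs_set σ)
    refine (hF σ).comp ?_
    fun_prop
  unfold mono
  refine h2.mul ?_
  refine Finset.measurable_prod _ fun j _ => ?_
  exact Complex.measurable_exp.comp ((Complex.measurable_ofReal.comp (measurable_const.mul
    (Real.measurable_log.comp (measurable_pi_apply j).abs))).mul_const _)

lemma mono_SI {m : ℕ} (a τ : Fin (m + 1) → ℝ) (F : (Fin (m + 1) → SignType) → ℝ → ℂ) :
    Pool.Agent.W777.MF.SI a (mono a τ F) := by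
  intro v hv hsum
  refine ⟨∏ j, cexp ((τ j * Real.log (v j) : ℝ) * I), ?_, ?_⟩
  · rw [norm_prod]
    exact Finset.prod_eq_one fun j _ => by rw [Complex.norm_exp_ofReal_mul_I]
  · have h0 : ∀ᵐ ξ : Fin (m + 1) → ℝ, ∀ j, ξ j ≠ 0 := by
      rw [ae_all_iff]
      intro j
      rw [ae_iff]
      simp only [ne_eq, not_not]
      exact Measure.pi_hyperplane (fun _ => (volume : Measure ℝ)) j 0
    filter_upwards [h0] with ξ hξ
    unfold mono
    have e1 : (fun j => SignType.sign ((v * ξ) j)) = fun j => SignType.sign (ξ j) := by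
      ext j
      rw [Pi.mul_apply, sign_mul, sign_pos (hv j), one_mul]
    have e2 : ∏ j, |(v * ξ) j| ^ a j = ∏ j, |ξ j| ^ a j := by
      have h1 : ∀ j, |(v * ξ) j| ^ a j = Real.exp (a j * Real.log (v j)) * |ξ j| ^ a j := by
        intro j
        rw [Pi.mul_apply, abs_mul, Real.mul_rpow (abs_nonneg _) (abs_nonneg _),
          abs_of_pos (hv j), Real.rpow_def_of_pos (hv j), mul_comm (Real.log (v j))]
      simp only [h1]
      rw [Finset.prod_mul_distrib, ← Real.exp_sum, hsum, Real.exp_zero, one_mul]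
    have e3 : ∏ j, cexp ((τ j * Real.log |(v * ξ) j| : ℝ) * I) =
        (∏ j, cexp ((τ j * Real.log (v j) : ℝ) * I)) *
          ∏ j, cexp ((τ j * Real.log |ξ j| : ℝ) * I) := by
      rw [← Finset.prod_mul_distrib]
      refine Finset.prod_congr rfl fun j _ => ?_
      rw [← Complex.exp_add, Pi.mul_apply, abs_mul, abs_of_pos (hv j),
        Real.log_mul (hv j).ne' (abs_ne_zero.2 (hξ j))]
      congr 1
      push_cast
      ring
    rw [e1, e2, e3]
    ring

/-- Let `n = m + 1 ≥ 2`, `c ∈ ℝ^n` with non-zero entries, `a ∈ ℝ^n` with `∑ a_j ≠ 0` and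
`q > 2(n+1)/n`. There is a constant `C` such that for every measurable `F`, every `τ ∈ ℝ^n` and
every window `w = window φ`, `φ ∈ L^1(ℝ^n)`, which vanishes outside the cube `[-1,1]^n`, the function
`h(ξ) = F(sgn ξ, ∏ |ξ_j|^(a_j)) ∏ |ξ_j|^(i τ_j)` satisfies
`‖E_c(w h)‖_{L^q(ℝ^(n+1))}^q ≤ C ‖φ‖_1^q ‖h‖_{L^q([-2,2]^n)}^q`. -/
theorem result (m : ℕ) (hm : 0 < m) (c a : Fin (m + 1) → ℝ) (hc : ∀ j, c j ≠ 0)
    (ha : ∑ j, a j ≠ 0) (q : ℝ) (hq : 2 * (m + 2 : ℝ) / (m + 1) < q) :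
    ∃ C : ℝ≥0, ∀ F : (Fin (m + 1) → SignType) → ℝ → ℂ, (∀ σ, Measurable (F σ)) →
      ∀ (τ : Fin (m + 1) → ℝ) (φ : (Fin (m + 1) → ℝ) → ℂ), Integrable φ →
        (∀ ξ, ξ ∉ Icc (-1 : Fin (m + 1) → ℝ) 1 → window φ ξ = 0) →
        ∫⁻ y : (Fin (m + 1) → ℝ) × ℝ, ‖ext c (fun ξ => window φ ξ * mono a τ F ξ) y‖ₑ ^ q ≤
          C * (∫⁻ η, ‖φ η‖ₑ) ^ q * ∫⁻ ξ in Icc (-2) 2, ‖mono a τ F ξ‖ₑ ^ q := by
  have hm0 : (0 : ℝ) < m := Nat.cast_pos.2 hm
  have hq' : 2 + 2 / (1 + (m : ℝ)) < q := by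
    have : 2 + 2 / (1 + (m : ℝ)) = 2 * (m + 2 : ℝ) / (m + 1) := by
      have h1 : 1 + (m : ℝ) ≠ 0 := by positivity
      have h2 : (m : ℝ) + 1 ≠ 0 := by positivity
      field_simp
      ring
    rw [this]
    exact hq
  have hq0 : 0 < q := by
    have : 0 < 2 / (1 + (m : ℝ)) := by positivity
    linarith
  obtain ⟨C, hC⟩ := Pool.Agent.W777.MF.main_SI hm c a hc ha q hq'
  refine ⟨C + 1, fun F hF τ φ hφ hφs => ?_⟩
  have hext : ∀ y, ext c (fun ξ => window φ ξ * mono a τ F ξ) y =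
      Pool.Agent.H153R4.ext0 c (fun ξ => Pool.Agent.W777.MF.wnd φ ξ * mono a τ F ξ) y := by
    intro y
    unfold ext Pool.Agent.H153R4.ext0
    rw [← integral_indicator measurableSet_Icc]
    apply integral_congr_ae
    refine ae_of_all _ fun ξ => ?_
    simp only
    by_cases h : ξ ∈ Icc (-1 : Fin (m + 1) → ℝ) 1
    · rw [indicator_of_mem h]
      rfl
    · rw [indicator_of_notMem h, show Pool.Agent.W777.MF.wnd φ ξ = 0 from hφs ξ h, zero_mul,
        zero_mul]
  simp only [hext]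
  rcases eq_or_ne (∫⁻ η, ‖φ η‖ₑ) 0 with h0 | h0
  · have hφ0 : φ =ᵐ[volume] 0 := by
      rw [lintegral_eq_zero_iff' hφ.1.enorm] at h0
      filter_upwards [h0] with η hη
      simpa using hη
    have hw : ∀ ξ, Pool.Agent.W777.MF.wnd φ ξ = 0 := by
      intro ξ
      unfold Pool.Agent.W777.MF.wnd
      apply integral_eq_zero_of_ae
      filter_upwards [hφ0] with η hη
      rw [hη]
      simp
    have : ∀ y : (Fin (m + 1) → ℝ) × ℝ, Pool.Agent.H153R4.ext0 c
        (fun ξ => Pool.Agent.W777.MF.wnd φ ξ * mono a τ F ξ) y = 0 := by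
      intro y
      unfold Pool.Agent.H153R4.ext0
      simp [hw]
    simp [this, ENNReal.zero_rpow_of_pos hq0]
  · by_cases hfin : ∫⁻ ξ in Icc (-2) 2, ‖mono a τ F ξ‖ₑ ^ q = ⊤
    · rw [hfin, ENNReal.mul_top]
      · exact le_top
      · refine mul_ne_zero (by simp) ?_
        rw [ne_eq, ENNReal.rpow_eq_zero_iff]
        rintro (h | h)
        · exact h0 h.1
        · linarith
    · refine (hC (mono a τ F) (mono_meas a τ hF) (mono_SI a τ F) hfin φ hφ hφs).trans ?_
      gcongr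
      exact le_self_add

end Pool.Agent.Results.MP_b7167f_an.MonomialFunctions
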