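import Mathlib
import Pool.Agent.W771.MK
set_option autoImplicit false

/-!
# The restriction conjecture for functions that are rough in one variable

Let `d = m + 2 ≥ 3` and write `ξ = (u, v)`, `u ∈ [-1,1]`, `v ∈ [-1,1]^m`, `m = d - 2`. The theorem
is the extension estimate for the paraboloid in the full conjectured range `q > 2d/(d-1)` for all
functions of regularity `s = (d-2)/(2d)` in the `d - 2` variables `v`, in the `L²` sense, and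
without any regularity in `u`.
-/

namespace Pool.Agent.Results.MP_b7167f_an.OneRoughVariable

open MeasureTheory Set Complex
open scoped ENNReal NNReal

/-- The closed cube `[-1,1]^n`. -/
abbrev cube (n : ℕ) : Set (Fin n → ℝ) := Icc (fun _ : Fin n => (-1 : ℝ)) (fun _ => 1)

/-- The extension operator of the truncated paraboloid in `ℝ^(n+1)`:
`Ef(x,t) = ∫_{[-1,1]^n} f(ξ) exp(2πi(ξ·x + |ξ|² t)) dξ`. -/
noncomputable def ext {n : ℕ} (f : (Fin n → ℝ) → ℂ) (y : (Fin n → ℝ) × ℝ) : ℂ :=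
  ∫ ξ in cube n,
    f ξ * cexp (2 * Real.pi * I * ((∑ j, ξ j * y.1 j + (∑ j, ξ j ^ 2) * y.2 : ℝ) : ℂ))

/-- **The restriction conjecture for functions that are rough in one variable.**
Let `m ≥ 1`, `d = m + 2`, `q > 2d/(d-1)` and `p ≥ 2` with `(d-1) q < p ((d-1)(q-1) - 2)` (for
instance `p = q`). There is `C` such that `‖E f‖_q ≤ C K` whenever

* `∫_u (∫_v |f(u,v)|² dv)^(p/2) du ≤ K^p`, and
* for every `h ∈ [-1,1]^m`, with `|h|` the maximum norm,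
  `∫_u (∫_v |f(u,v+h) - f(u,v)|² dv)^(p/2) du ≤ (K |h|^((d-2)/(2d)))^p`,

where `u` runs over `[-1,1]` and `v` (and `v + h`) over `[-1,1]^m`. -/
theorem result (m : ℕ) (hm : 1 ≤ m) (q p : ℝ) (hq : 2 * ((m : ℝ) + 2) / (m + 1) < q)
    (hp2 : 2 ≤ p) (hp : ((m : ℝ) + 1) * q < p * ((m + 1) * (q - 1) - 2)) :
    ∃ C : ℝ≥0, ∀ (f : (Fin (m + 1) → ℝ) → ℂ) (K : ℝ≥0), Measurable f →
      (∫⁻ u in Icc (-1 : ℝ) 1, (∫⁻ v in cube m, ‖f (Fin.cons u v)‖ₑ ^ 2) ^ (p / 2)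
        ≤ (K : ℝ≥0∞) ^ p) →
      (∀ h : Fin m → ℝ, ‖h‖ ≤ 1 →
        ∫⁻ u in Icc (-1 : ℝ) 1, (∫⁻ v in {v | v ∈ cube m ∧ v + h ∈ cube m},
          ‖f (Fin.cons u (v + h)) - f (Fin.cons u v)‖ₑ ^ 2) ^ (p / 2)
        ≤ (K * ENNReal.ofReal (‖h‖ ^ ((m : ℝ) / (2 * (m + 2))))) ^ p) →
      ∫⁻ y : (Fin (m + 1) → ℝ) × ℝ, ‖ext f y‖ₑ ^ q ≤ (C * K : ℝ≥0∞) ^ q := by
  obtain ⟨C, hC⟩ := Pool.Agent.W771.MD.mainExt hm q p hq hp2 hp
  refine ⟨C, ?_⟩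
  intro f K hf hN hM
  have hm0 : (1 : ℝ) ≤ m := by exact_mod_cast hm
  have hq0 : 0 < q := by
    refine lt_trans ?_ hq
    positivity
  have hp0 : 0 ≤ p := by linarith
  -- larger constants
  have key : ∀ L : ℝ≥0, K ≤ L → L ≠ 0 →
      ∫⁻ y : (Fin (m + 1) → ℝ) × ℝ, ‖ext f y‖ₑ ^ q ≤ (C * L : ℝ≥0∞) ^ q := by
    intro L hKL hL0
    have hKL' : (K : ℝ≥0∞) ≤ L := by exact_mod_cast hKL
    refine hC f hf L (by exact_mod_cast hL0) ENNReal.coe_ne_top ?_ ?_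
    · exact hN.trans (ENNReal.rpow_le_rpow hKL' hp0)
    · intro h hh
      exact (hM h hh).trans (ENNReal.rpow_le_rpow (mul_le_mul' hKL' le_rfl) hp0)
  have hn : ∀ n : ℕ, ∫⁻ y : (Fin (m + 1) → ℝ) × ℝ, ‖ext f y‖ₑ ^ q ≤
      (C * (K + ((n : ℝ≥0∞) + 1)⁻¹) : ℝ≥0∞) ^ q := by
    intro n
    have h1 := key (K + ((n : ℝ≥0) + 1)⁻¹) le_self_add (by positivity)
    have h2 : (((K + ((n : ℝ≥0) + 1)⁻¹ : ℝ≥0)) : ℝ≥0∞) = K + ((n : ℝ≥0∞) + 1)⁻¹ := by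
      rw [ENNReal.coe_add, ENNReal.coe_inv (by positivity)]
      push_cast
      rfl
    rwa [h2] at h1
  have ht : Filter.Tendsto (fun n : ℕ => ((n : ℝ≥0∞) + 1)⁻¹) Filter.atTop (nhds 0) := by
    have h1 := ENNReal.tendsto_inv_nat_nhds_zero
    have h2 := (Filter.tendsto_add_atTop_iff_nat 1).mpr h1
    refine h2.congr fun n => ?_
    push_cast
    rfl
  have hlim : Filter.Tendsto (fun n : ℕ => (C * (K + ((n : ℝ≥0∞) + 1)⁻¹) : ℝ≥0∞) ^ q) Filter.atTop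
      (nhds ((C * K : ℝ≥0∞) ^ q)) := by
    have h1 : Filter.Tendsto (fun n : ℕ => (K : ℝ≥0∞) + ((n : ℝ≥0∞) + 1)⁻¹) Filter.atTop
        (nhds (K + 0)) := tendsto_const_nhds.add ht
    rw [add_zero] at h1
    have h2 := ENNReal.Tendsto.const_mul (a := (C : ℝ≥0∞)) h1 (Or.inr ENNReal.coe_ne_top)
    exact (ENNReal.continuous_rpow_const (y := q)).continuousAt.tendsto.comp h2
  exact ge_of_tendsto' hlim hn

end Pool.Agent.Results.MP_b7167f_an.OneRoughVariable
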